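import Pool.Agent.L0h77.WK.Stm2

/-!
# Project WK (helper77), module CUT
-/

set_option autoImplicit false

open scoped ContDiff

namespace Pool.Agent.L0h29.WK

open Pool.Agent.L0h77.WK
open Pool.Agent.N661.BR (IsCutoff)

theorem CUT : S_CUT := by
  intro χ hχ
  obtain ⟨K, hK⟩ := (hχ.smooth.mono (fun x (hx : x ∈ Set.Icc (0 : ℝ) 1) => hx.1)
    ).exists_lipschitzOnWith (by simp) (convex_Icc 0 1) isCompact_Icc
  have key : ∀ a b : ℝ, 0 ≤ a → a ≤ b → |χ a - χ b| ≤ K * |a - b| := by
    intro a b ha hab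
    have hK0 : (0 : ℝ) ≤ K := K.2
    rcases le_or_gt b 1 with hb | hb
    · have h1 := hK.dist_le_mul a ⟨ha, hab.trans hb⟩ b ⟨ha.trans hab, hb⟩
      rwa [Real.dist_eq, Real.dist_eq] at h1
    · rcases le_or_gt a 1 with ha1 | ha1
      · have h1 := hK.dist_le_mul a ⟨ha, ha1⟩ 1 ⟨zero_le_one, le_rfl⟩
        rw [Real.dist_eq, Real.dist_eq] at h1
        rw [hχ.zero b hb.le, ← hχ.zero 1 le_rfl]
        refine h1.trans (mul_le_mul_of_nonneg_left ?_ hK0)
        rw [abs_sub_comm a 1, abs_sub_comm a b, abs_of_nonneg (by linarith),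
          abs_of_nonneg (by linarith)]
        linarith
      · rw [hχ.zero a ha1.le, hχ.zero b hb.le, sub_self, abs_zero]
        positivity
  refine ⟨K, K.2, fun a b ha hb => ?_⟩
  rcases le_total a b with hab | hab
  · exact key a b ha hab
  · rw [abs_sub_comm, abs_sub_comm a b]
    exact key b a hb hab

end Pool.Agent.L0h29.WK
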